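import Pool.Agent.Helper51.BN.Defs

/-! # Assigning distinct radii to a family of balls -/

set_option autoImplicit false

namespace Pool.Agent.Helper55.BR

open Finset N441b2449

theorem assign {β : Type*} [DecidableEq β] (n : ℕ) (cl : β → ℕ) (B : Finset β)
    (h : ∀ b ∈ B, (B.filter fun b' => cl b ≤ cl b').card + cl b ≤ n) :
    ∃ f : β → ℕ, (∀ b ∈ B, ∀ b' ∈ B, f b = f b' → b = b') ∧ ∀ b ∈ B, cl b ≤ f b ∧ f b < n := by
  induction hc : B.card generalizing B with
  | zero =>
    rw [Finset.card_eq_zero] at hc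
    subst hc
    exact ⟨fun _ => 0, by simp, by simp⟩
  | succ m ih =>
    have hne : B.Nonempty := Finset.card_pos.1 (by omega)
    obtain ⟨b0, hb0, hmin⟩ := Finset.exists_min_image B cl hne
    obtain ⟨f, h1, h2⟩ := ih (B.erase b0) (fun b hb => by
      refine le_trans ?_ (h b (Finset.mem_of_mem_erase hb))
      exact Nat.add_le_add_right (Finset.card_le_card
        (Finset.filter_subset_filter _ (Finset.erase_subset _ _))) _)
      (by rw [Finset.card_erase_of_mem hb0]; omega)
    have hall : (B.filter fun b' => cl b0 ≤ cl b') = B :=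
      Finset.filter_true_of_mem fun b hb => hmin b hb
    have h3 := h b0 hb0
    rw [hall] at h3
    have h4 : ((B.erase b0).image f).card < (Finset.Ico (cl b0) n).card := by
      refine Finset.card_image_le.trans_lt ?_
      rw [Finset.card_erase_of_mem hb0, Nat.card_Ico]
      omega
    obtain ⟨v, hv1, hv2⟩ := Finset.exists_mem_notMem_of_card_lt_card h4
    rw [Finset.mem_Ico] at hv1
    have hv3 : ∀ b ∈ B, b ≠ b0 → f b ≠ v := fun b hb hne hfb =>
      hv2 (Finset.mem_image.2 ⟨b, Finset.mem_erase.2 ⟨hne, hb⟩, hfb⟩)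
    refine ⟨fun b => if b = b0 then v else f b, ?_, ?_⟩
    · intro b hb b' hb' he
      by_cases hb1 : b = b0 <;> by_cases hb2 : b' = b0
      · rw [hb1, hb2]
      · simp only [hb1, hb2, if_true, if_false] at he
        exact absurd he.symm (hv3 b' hb' hb2)
      · simp only [hb1, hb2, if_true, if_false] at he
        exact absurd he (hv3 b hb hb1)
      · simp only [hb1, hb2, if_false] at he
        exact h1 b (Finset.mem_erase.2 ⟨hb1, hb⟩) b' (Finset.mem_erase.2 ⟨hb2, hb'⟩) he
    · intro b hb
      by_cases hb1 : b = b0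
      · simp only [hb1, if_true]
        exact hv1
      · simp only [hb1, if_false]
        exact h2 b (Finset.mem_erase.2 ⟨hb1, hb⟩)

/-- A family of balls with `#{balls of radius at least R} ≤ n - R` gives a burning sequence. -/
theorem burning_of_balls {V : Type*} [Fintype V] {G : SimpleGraph V} (hG : G.Connected)
    {β : Type*} [DecidableEq β] (n : ℕ) (cl : β → ℕ) (ce : β → V) (B : Finset β)
    (h : ∀ b ∈ B, (B.filter fun b' => cl b ≤ cl b').card + cl b ≤ n)
    (hcov : ∀ v, ∃ b ∈ B, G.dist (ce b) v ≤ cl b) : burningNumber G ≤ n := by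
  classical
  obtain ⟨f, h1, h2⟩ := assign n cl B h
  obtain ⟨v0⟩ := hG.nonempty
  refine Nat.sInf_le ⟨fun i : Fin n => if hb : ∃ b ∈ B, f b = n - 1 - (i : ℕ) then
    ce hb.choose else v0, fun v => ?_⟩
  obtain ⟨b, hb, hd⟩ := hcov v
  have h3 := h2 b hb
  refine ⟨⟨n - 1 - f b, by omega⟩, hG.preconnected _ _, ?_⟩
  have hex : ∃ b' ∈ B, f b' = n - 1 - (n - 1 - f b) := ⟨b, hb, by omega⟩
  have h4 := hex.choose_spec
  have h5 : hex.choose = b := h1 _ h4.1 b hb (by omega)
  simp only
  rw [dif_pos hex, h5]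
  omega

end Pool.Agent.Helper55.BR
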