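import Pool.Agent.Helper55.BR.Basic

/-! # One stage of the rounding, and the rounding theorem -/

set_option autoImplicit false

namespace Pool.Agent.Helper55.BR

open Finset

section

variable {ι α : Type*}

/-- The hypotheses: `N u R` is the number of balls of radius at least `R` of the cover `u`; the
cover `top i` of the piece `i` has at most `A` balls. -/
structure Pcs (E : Finset ι) (U : ι → Finset α) (N : α → ℕ → ℝ) (top : ι → α) (A : ℝ) : Prop where
  nonneg : ∀ i ∈ E, ∀ u ∈ U i, ∀ R, 0 ≤ N u R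
  anti : ∀ i ∈ E, ∀ u ∈ U i, ∀ R R', R ≤ R' → N u R' ≤ N u R
  fin : ∃ K, ∀ i ∈ E, ∀ u ∈ U i, N u K = 0
  top_mem : ∀ i ∈ E, top i ∈ U i
  top_le : ∀ i ∈ E, N (top i) 0 ≤ A

theorem Pcs.mono {E E' : Finset ι} {U : ι → Finset α} {N : α → ℕ → ℝ} {top : ι → α} {A : ℝ}
    (h : Pcs E U N top A) (hE : E' ⊆ E) : Pcs E' U N top A where
  nonneg i hi := h.nonneg i (hE hi)
  anti i hi := h.anti i (hE hi)
  fin := h.fin.imp fun _ hK i hi => hK i (hE hi)
  top_mem i hi := h.top_mem i (hE hi)
  top_le i hi := h.top_le i (hE hi)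

theorem Fr.mono {E E' : Finset ι} {U : ι → Finset α} {x : ι → α → ℝ} (h : Fr E U x)
    (hE : E' ⊆ E) : Fr E' U x :=
  ⟨fun i hi => h.nonneg i (hE hi), fun i hi => h.one i (hE hi)⟩

variable {E : Finset ι} {U : ι → Finset α} {N : α → ℕ → ℝ} {top : ι → α} {A : ℝ}

theorem use_anti (h : Pcs E U N top A) {x : ι → α → ℝ} (hx : Fr E U x) {R R' : ℕ}
    (hR : R ≤ R') : use E U x (fun u => N u R') ≤ use E U x (fun u => N u R) :=
  Finset.sum_le_sum fun i hi => Finset.sum_le_sum fun u hu =>
    mul_le_mul_of_nonneg_left (h.anti i hi u hu R R' hR) (hx.nonneg i hi u hu)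

theorem use_nonneg (h : Pcs E U N top A) {x : ι → α → ℝ} (hx : Fr E U x) (R : ℕ) :
    0 ≤ use E U x (fun u => N u R) :=
  Finset.sum_nonneg fun i hi => Finset.sum_nonneg fun u hu =>
    mul_nonneg (hx.nonneg i hi u hu) (h.nonneg i hi u hu R)

/-- Moving a part of the weight to the top covers. -/
theorem exists_shift (h : Pcs E U N top A) {x : ι → α → ℝ} (hx : Fr E U x) {ε : ℝ}
    (hε : 0 ≤ ε) (hε1 : ε ≤ 1) : ∃ x', Fr E U x' ∧ ∀ R,
      use E U x' (fun u => N u R) ≤ (1 - ε) * use E U x (fun u => N u R) + ε * (E.card * A) := by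
  classical
  refine ⟨fun i u => (1 - ε) * x i u + ε * (if u = top i then 1 else 0), ⟨?_, ?_⟩, ?_⟩
  · intro i hi u hu
    have h1 := mul_nonneg (by linarith : 0 ≤ 1 - ε) (hx.nonneg i hi u hu)
    have h2 : 0 ≤ ε * (if u = top i then (1 : ℝ) else 0) := by
      split_ifs <;> simp [hε]
    linarith
  · intro i hi
    rw [Finset.sum_add_distrib, ← Finset.mul_sum, ← Finset.mul_sum, hx.one i hi,
      Finset.sum_ite_eq', if_pos (h.top_mem i hi)]
    ring
  · intro R
    unfold use
    have h1 : ∑ i ∈ E, ∑ u ∈ U i, ((1 - ε) * x i u + ε * (if u = top i then 1 else 0)) * N u R =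
        (1 - ε) * ∑ i ∈ E, ∑ u ∈ U i, x i u * N u R + ε * ∑ i ∈ E, N (top i) R := by
      rw [Finset.mul_sum, Finset.mul_sum, ← Finset.sum_add_distrib]
      refine Finset.sum_congr rfl fun i hi => ?_
      have h2 : ∑ u ∈ U i, ε * (if u = top i then (1 : ℝ) else 0) * N u R = ε * N (top i) R := by
        rw [Finset.sum_eq_single_of_mem (top i) (h.top_mem i hi)]
        · rw [if_pos rfl, mul_one]
        · intro u _ hu
          rw [if_neg hu]
          ring
      rw [← h2, Finset.mul_sum, ← Finset.sum_add_distrib]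
      refine Finset.sum_congr rfl fun u _ => ?_
      ring
    rw [h1]
    have h3 : ∑ i ∈ E, N (top i) R ≤ E.card * A := by
      refine (Finset.sum_le_card_nsmul E _ A fun i hi => ?_).trans (by rw [nsmul_eq_mul])
      exact (h.anti i hi _ (h.top_mem i hi) 0 R (Nat.zero_le R)).trans (h.top_le i hi)
    have := mul_le_mul_of_nonneg_left h3 hε
    linarith

/-- One stage: the number of the indices where the choice is not integral is divided by four. -/
theorem stage (h : Pcs E U N top A) {x : ι → α → ℝ} (hx : Fr E U x) {Y δ : ℝ} (hY : 0 < Y)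
    (hδ0 : 0 < δ) (hδ : Y * Real.exp (-(δ / 4)) ≤ 1) (hM : δ ≤ E.card)
    (h0 : use E U x (fun u => N u 0) ≤ Y) :
    ∃ x', Fr E U x' ∧ (∀ R, use E U x' (fun u => N u R) ≤
      use E U x (fun u => N u R) + (A * δ + 1)) ∧ (flt E U x').card ≤ E.card / 4 + 2 := by
  classical
  set M := E.card with hMd
  have hM0 : (0 : ℝ) < M := lt_of_lt_of_le hδ0 hM
  set ε : ℝ := δ / M with hε
  have hε0 : 0 ≤ ε := (div_pos hδ0 hM0).le
  have hε1 : ε ≤ 1 := (div_le_one hM0).2 hM
  have hεM : ε * (M * A) = A * δ := by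
    rw [hε]
    field_simp
  obtain ⟨x1, hx1, hu1⟩ := exists_shift h hx hε0 hε1
  set I : ℕ := (M + 3) / 4 with hI
  set l : ℕ → ℝ := fun i => Y * (1 - ε) ^ i with hl
  have hIM : (M : ℝ) / 4 ≤ I := by
    have h1 : M ≤ 4 * I := by omega
    have h2 : (M : ℝ) ≤ 4 * I := by exact_mod_cast h1
    linarith
  have hlI : l I ≤ 1 := by
    have h1 : (1 - ε) ^ I ≤ Real.exp (-(δ / 4)) := by
      have h2 : 1 - ε ≤ Real.exp (-ε) := by
        have := Real.add_one_le_exp (-ε)
        linarith
      refine (pow_le_pow_left₀ (by linarith) h2 I).trans ?_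
      rw [← Real.exp_nat_mul]
      apply Real.exp_le_exp.2
      have h3 : δ / 4 ≤ I * ε := by
        have h4 : δ / 4 = (M / 4) * ε := by
          rw [hε]
          field_simp
        rw [h4]
        exact mul_le_mul_of_nonneg_right hIM hε0
      linarith
    exact (mul_le_mul_of_nonneg_left h1 hY.le).trans hδ
  have hl0 : ∀ i, 0 ≤ l i := fun i => mul_nonneg hY.le (pow_nonneg (by linarith) i)
  have hls : ∀ i, l (i + 1) = (1 - ε) * l i := by
    intro i
    simp only [hl]
    ring
  set ν : ℕ → ℝ := fun R => use E U x (fun u => N u R) with hν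
  obtain ⟨K, hK⟩ := h.fin
  have hνK : ν K = 0 := by
    simp only [hν, use]
    refine Finset.sum_eq_zero fun i hi => Finset.sum_eq_zero fun u hu => ?_
    rw [hK i hi u hu, mul_zero]
  have hex : ∀ i, ∃ R, ν R ≤ l i := fun i => ⟨K, by rw [hνK]; exact hl0 i⟩
  let Ri : ℕ → ℕ := fun i => Nat.find (hex i)
  have hRi : ∀ i, ν (Ri i) ≤ l i := fun i => Nat.find_spec (hex i)
  have hRi' : ∀ i R, ν R ≤ l i → Ri i ≤ R := fun i R hR => Nat.find_min' (hex i) hR
  obtain ⟨x2, hx2, hu2, hf2⟩ := exists_basic (D := I + 1) E U (fun j u => N u (Ri j)) x1 hx1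
  have hu2' : ∀ i, i ≤ I → use E U x2 (fun u => N u (Ri i)) ≤ (1 - ε) * l i + A * δ := by
    intro i hi
    have h1 := hu2 ⟨i, by omega⟩
    simp only at h1
    rw [h1]
    refine (hu1 (Ri i)).trans ?_
    rw [← hMd, hεM]
    have := mul_le_mul_of_nonneg_left (hRi i) (by linarith : 0 ≤ 1 - ε)
    simp only [hν] at this
    linarith
  refine ⟨x2, hx2, ?_, ?_⟩
  · intro R
    have hνR : 0 ≤ ν R := use_nonneg h hx R
    by_cases hR : ν R ≤ l I
    · have h1 := use_anti h hx2 (hRi' I R hR)
      have h2 := hu2' I le_rfl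
      have h3 : (1 - ε) * l I ≤ 1 := by
        have := mul_le_mul_of_nonneg_right (by linarith : 1 - ε ≤ 1) (hl0 I)
        linarith
      simp only [hν] at hνR
      linarith
    · push Not at hR
      -- the largest level above
      have hR0 : ν R ≤ l 0 := by
        simp only [hl, pow_zero, mul_one]
        exact (use_anti h hx (Nat.zero_le R)).trans h0
      have hex2 : ∃ i, i < I ∧ ν R ≤ l i ∧ l (i + 1) < ν R := by
        by_contra hcon
        push Not at hcon
        have h1 : ∀ i, i ≤ I → ν R ≤ l i := by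
          intro i
          induction i with
          | zero => intro _; exact hR0
          | succ i ih =>
            intro hi
            exact hcon i (by omega) (ih (by omega))
        exact absurd (h1 I le_rfl) (not_le.2 hR)
      obtain ⟨i, hi, h1, h2⟩ := hex2
      have h3 := use_anti h hx2 (hRi' i R h1)
      have h4 := hu2' i hi.le
      rw [← hls] at h4
      simp only [hν] at h2
      linarith
  · have : I + 1 ≤ M / 4 + 2 := by omega
    exact hf2.trans this

/-- The rounding theorem. -/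
theorem round (h : Pcs E U N top A) (hA : 0 ≤ A) {Y δ : ℝ} (hY : 0 < Y)
    (hδ8 : 8 ≤ δ) (hδ : Y * Real.exp (-(δ / 4)) ≤ 1) (s : ℕ) {x : ι → α → ℝ} (hx : Fr E U x)
    (hs : (E.card : ℝ) ≤ 2 ^ s * δ)
    (h0 : use E U x (fun u => N u 0) + s * (A * δ + 1) ≤ Y) :
    ∃ c : ι → α, (∀ i ∈ E, c i ∈ U i) ∧ ∀ R, ∑ i ∈ E, N (c i) R ≤
      use E U x (fun u => N u R) + (s * (A * δ + 1) + A * δ) := by
  classical
  induction s generalizing E x with
  | zero =>
    refine ⟨top, h.top_mem, fun R => ?_⟩
    have h1 : ∑ i ∈ E, N (top i) R ≤ E.card * A := by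
      refine (Finset.sum_le_card_nsmul E _ A fun i hi => ?_).trans (by rw [nsmul_eq_mul])
      exact (h.anti i hi _ (h.top_mem i hi) 0 R (Nat.zero_le R)).trans (h.top_le i hi)
    have h2 := use_nonneg h hx R
    rw [pow_zero, one_mul] at hs
    have h3 := mul_le_mul_of_nonneg_right hs hA
    push_cast
    linarith
  | succ s ih =>
    have hAδ : 0 ≤ A * δ + 1 := by positivity
    by_cases hM : (E.card : ℝ) ≤ δ
    · obtain ⟨c, h1, h2⟩ := ih h hx (hM.trans (by
        have : (1 : ℝ) ≤ 2 ^ s := one_le_pow₀ (by norm_num)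
        nlinarith)) (by push_cast at h0; linarith)
      refine ⟨c, h1, fun R => (h2 R).trans ?_⟩
      push_cast
      linarith
    · push Not at hM
      obtain ⟨x', hx', hu', hf'⟩ := stage h hx hY (by linarith) hδ hM.le (by
        push_cast at h0
        have : 0 ≤ ((s : ℝ) + 1) * (A * δ + 1) := by positivity
        linarith)
      set E' := flt E U x' with hE'
      have hsub : E' ⊆ E := flt_subset E U x'
      have hM8 : 8 < E.card := by
        have : (8 : ℝ) < E.card := by linarith
        exact_mod_cast this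
      have hcard : (E'.card : ℝ) ≤ 2 ^ s * δ := by
        have h1 : 2 * E'.card ≤ E.card := by omega
        have h2 : (2 : ℝ) * E'.card ≤ E.card := by exact_mod_cast h1
        rw [pow_succ] at hs
        nlinarith
      -- splitting
      have hint : ∀ i ∈ E \ E', ∃ c ∈ U i, ∀ f : α → ℝ, ∑ u ∈ U i, x' i u * f u = f c := by
        intro i hi
        rw [Finset.mem_sdiff] at hi
        exact exists_integral hx' i hi.1 hi.2
      have hne : Nonempty α := by
        obtain ⟨i0, -⟩ := Finset.card_pos.1 (by omega : 0 < E.card)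
        exact ⟨top i0⟩
      choose! c1 hc1 hc1' using hint
      have hsplit : ∀ f : α → ℝ, use E U x' f = ∑ i ∈ E \ E', f (c1 i) + use E' U x' f := by
        intro f
        unfold use
        rw [← Finset.sum_sdiff hsub]
        congr 1
        exact Finset.sum_congr rfl fun i hi => hc1' i hi f
      have hpos : ∀ R, 0 ≤ ∑ i ∈ E \ E', N (c1 i) R := fun R =>
        Finset.sum_nonneg fun i hi => h.nonneg i (Finset.mem_sdiff.1 hi).1 _ (hc1 i hi) R
      obtain ⟨c2, h1, h2⟩ := ih (h.mono hsub) (hx'.mono hsub) hcard (by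
        have h3 := hu' 0
        rw [hsplit] at h3
        have h4 := hpos 0
        push_cast at h0
        linarith)
      refine ⟨fun i => if i ∈ E' then c2 i else c1 i, ?_, fun R => ?_⟩
      · intro i hi
        by_cases hi' : i ∈ E'
        · simp only [if_pos hi']
          exact h1 i hi'
        · simp only [if_neg hi']
          exact hc1 i (Finset.mem_sdiff.2 ⟨hi, hi'⟩)
      · rw [← Finset.sum_sdiff hsub]
        have e1 : ∑ i ∈ E \ E', N (if i ∈ E' then c2 i else c1 i) R =
            ∑ i ∈ E \ E', N (c1 i) R :=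
          Finset.sum_congr rfl fun i hi => by rw [if_neg (Finset.mem_sdiff.1 hi).2]
        have e2 : ∑ i ∈ E', N (if i ∈ E' then c2 i else c1 i) R = ∑ i ∈ E', N (c2 i) R :=
          Finset.sum_congr rfl fun i hi => by rw [if_pos hi]
        rw [e1, e2]
        have h3 := h2 R
        have h4 := hu' R
        rw [hsplit] at h4
        push_cast
        linarith

end

end Pool.Agent.Helper55.BR
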