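import Pool.Agent.Helper51.BN.Round
import Pool.Agent.Helper55.BR.Stage
import Pool.Agent.Helper55.BR.Assign

/-! # Burning number: rounding the covers of the pieces, general form

If, for every monotone price `g` of the radii, the pieces `P i` have covers of total cost at most
`∑ r < k', g r` (the pieces being fixed before the price), then all the pieces can be covered
by balls of distinct radii below `k' + L`, with `L = 32 A ℓ (ℓ + 1) + ℓ`. -/

set_option autoImplicit false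

namespace Pool.Agent.Helper55.BR

open Finset N441b2449 Pool.Agent.Helper51.BN

/-- The numbers of the balls of radius at least `R`. -/
def lv {V : Type*} (k : ℕ) (C : Finset (V × ℕ)) (R : Fin k) : ℝ :=
  ((C.filter fun p => (R : ℕ) ≤ p.2).card : ℝ)

/-- The entry of a vector, `0` from `k` on. -/
def NN {k : ℕ} (u : Fin k → ℝ) (R : ℕ) : ℝ := if h : R < k then u ⟨R, h⟩ else 0

theorem NN_lv {V : Type*} {k : ℕ} (C : Finset (V × ℕ)) (hC : ∀ p ∈ C, p.2 < k) (R : ℕ) :
    NN (lv k C) R = ((C.filter fun p => R ≤ p.2).card : ℝ) := by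
  unfold NN lv
  by_cases h : R < k
  · rw [dif_pos h]
  · rw [dif_neg h]
    have : (C.filter fun p => R ≤ p.2) = ∅ := by
      rw [Finset.filter_eq_empty_iff]
      intro p hp
      have := hC p hp
      omega
    rw [this]
    simp

/-- The price defined by the weights of the levels. -/
def pr {k : ℕ} (y : Fin k → ℝ) (r : ℕ) : ℝ := ∑ R : Fin k, if (R : ℕ) ≤ r then y R else 0

theorem pr_nonneg {k : ℕ} {y : Fin k → ℝ} (hy : ∀ R, 0 ≤ y R) (r : ℕ) : 0 ≤ pr y r :=
  Finset.sum_nonneg fun R _ => by split_ifs <;> simp [hy R]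

theorem pr_mono {k : ℕ} {y : Fin k → ℝ} (hy : ∀ R, 0 ≤ y R) : Monotone (pr y) := by
  intro r r' h
  refine Finset.sum_le_sum fun R _ => ?_
  by_cases h1 : (R : ℕ) ≤ r
  · rw [if_pos h1, if_pos (h1.trans h)]
  · rw [if_neg h1]
    split_ifs <;> simp [hy R]

theorem sum_lv {V : Type*} {k : ℕ} (y : Fin k → ℝ) (C : Finset (V × ℕ)) :
    ∑ R, y R * lv k C R = ∑ p ∈ C, pr y p.2 := by
  unfold lv pr
  rw [Finset.sum_comm]
  refine Finset.sum_congr rfl fun R _ => ?_
  rw [← Finset.sum_filter, Finset.sum_const, nsmul_eq_mul, mul_comm]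

theorem sum_pr {k : ℕ} (y : Fin k → ℝ) :
    ∑ r ∈ range k, pr y r = ∑ R : Fin k, y R * ((k : ℝ) - (R : ℕ)) := by
  unfold pr
  rw [Finset.sum_comm]
  refine Finset.sum_congr rfl fun R _ => ?_
  rw [← Finset.sum_filter, Finset.sum_const, nsmul_eq_mul, mul_comm]
  congr 1
  have h1 : (range k).filter (fun r => (R : ℕ) ≤ r) = Finset.Ico (R : ℕ) k := by
    ext r
    rw [Finset.mem_filter, Finset.mem_range, Finset.mem_Ico]
    tauto
  rw [h1, Nat.card_Ico, Nat.cast_sub R.2.le]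

private theorem le_two_pow (l : ℕ) (hl : 1 ≤ l) : l ≤ 2 ^ (l - 1) := by
  induction l, hl using Nat.le_induction with
  | base => norm_num
  | succ l hl ih =>
    obtain ⟨t, rfl⟩ : ∃ t, l = t + 1 := ⟨l - 1, by omega⟩
    rw [show t + 1 + 1 - 1 = t + 1 by omega, pow_succ]
    rw [show t + 1 - 1 = t by omega] at ih
    omega

private theorem pow_bound {l A k : ℕ} (hl : 1 ≤ l) (hA : A ≤ 2 ^ l) (hk : k ≤ 2 ^ l) :
    k + l * (A * (32 * l) + 1) ≤ 2 ^ (8 * l) := by
  obtain ⟨t, rfl⟩ : ∃ t, l = t + 1 := ⟨l - 1, by omega⟩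
  have h1 : t + 1 ≤ 2 ^ t := by simpa using le_two_pow (t + 1) (by omega)
  have hP : 1 ≤ 2 ^ t := Nat.one_le_two_pow
  have e1 : 2 ^ (t + 1) = 2 * 2 ^ t := by rw [pow_succ]; ring
  have e2 : 2 ^ (8 * (t + 1)) = 256 * (2 ^ t) ^ 8 := by
    rw [← pow_mul, show 8 * (t + 1) = 8 + t * 8 by ring, pow_add]
    norm_num
  rw [e1] at hA hk
  rw [e2]
  generalize 2 ^ t = p at *
  generalize t + 1 = l at *
  have h2 : l * (A * (32 * l) + 1) ≤ p * (2 * p * (32 * p) + 1) := by gcongr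
  have h3 : p ^ 3 ≤ p ^ 8 := Nat.pow_le_pow_right hP (by norm_num)
  have h4 : p ≤ p ^ 8 := by
    calc p = p ^ 1 := (pow_one p).symm
      _ ≤ p ^ 8 := Nat.pow_le_pow_right hP (by norm_num)
  calc k + l * (A * (32 * l) + 1) ≤ 2 * p + p * (2 * p * (32 * p) + 1) := Nat.add_le_add hk h2
    _ = 64 * p ^ 3 + 3 * p := by ring
    _ ≤ 256 * p ^ 8 := by omega

/-- **Rounding the covers of the pieces.** -/
theorem round_pieces {V : Type*} [Fintype V] {G : SimpleGraph V} (hG : G.Connected)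
    {m k' A l : ℕ} (hl : 1 ≤ l) (hm : m ≤ 2 ^ l) (hk' : k' ≤ 2 ^ l) (hA : A ≤ 2 ^ l)
    (P : Fin m → Finset V) (hcov : ∀ v, ∃ i, v ∈ P i)
    (htop : ∀ i, ∃ Z : Finset V, Z.card ≤ A ∧ ∀ v ∈ P i, ∃ z ∈ Z, G.dist z v ≤ k' - 1)
    (hfrac : ∀ g : ℕ → ℝ, (∀ i, 0 ≤ g i) → Monotone g → ∃ C : Fin m → Finset (V × ℕ),
      (∀ i, ∀ p ∈ C i, p.2 < k') ∧ (∀ i, ∀ v ∈ P i, ∃ p ∈ C i, G.dist p.1 v ≤ p.2) ∧
      ∑ i, ∑ p ∈ C i, g p.2 ≤ ∑ r ∈ range k', g r) :
    burningNumber G ≤ k' + (32 * A * l * (l + 1) + l) := by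
  classical
  obtain ⟨v0⟩ := hG.nonempty
  have hk0 : 0 < k' := by
    obtain ⟨C, h1, h2, _⟩ := hfrac (fun _ => 0) (fun _ => le_rfl) monotone_const
    obtain ⟨i, hi⟩ := hcov v0
    obtain ⟨p, hp, _⟩ := h2 i v0 hi
    exact lt_of_le_of_lt (Nat.zero_le _) (h1 i p hp)
  let CC : Fin m → Finset (Finset (V × ℕ)) := fun i =>
    ((univ : Finset V) ×ˢ range k').powerset.filter fun C => ∀ v ∈ P i, ∃ p ∈ C,
      G.dist p.1 v ≤ p.2
  have hCC : ∀ i C, C ∈ CC i ↔ (∀ p ∈ C, p.2 < k') ∧ ∀ v ∈ P i, ∃ p ∈ C,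
      G.dist p.1 v ≤ p.2 := by
    intro i C
    show C ∈ ((univ : Finset V) ×ˢ range k').powerset.filter _ ↔ _
    rw [Finset.mem_filter, Finset.mem_powerset]
    refine and_congr_left fun _ => ⟨fun h p hp => ?_, fun h p hp => ?_⟩
    · have := h hp
      rw [Finset.mem_product, Finset.mem_range] at this
      exact this.2
    · rw [Finset.mem_product, Finset.mem_range]
      exact ⟨mem_univ _, h p hp⟩
  let U : Fin m → Finset (Fin k' → ℝ) := fun i => (CC i).image (lv k')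
  have hUex : ∀ i, ∀ u ∈ U i, ∃ C ∈ CC i, lv k' C = u := fun i u hu => Finset.mem_image.1 hu
  -- the fractional solution
  obtain ⟨x, hx0, hx1, hxa⟩ := exists_frac U (by
      intro i
      obtain ⟨C, h1, h2, _⟩ := hfrac (fun _ => 0) (fun _ => le_rfl) monotone_const
      exact ⟨lv k' (C i), Finset.mem_image_of_mem _ ((hCC i _).2 ⟨h1 i, h2 i⟩)⟩)
      (fun R => (k' : ℝ) - (R : ℕ)) (by
      intro y hy
      obtain ⟨C, h1, h2, h3⟩ := hfrac (pr y) (pr_nonneg hy) (pr_mono hy)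
      refine ⟨fun i => lv k' (C i),
        fun i => Finset.mem_image_of_mem _ ((hCC i _).2 ⟨h1 i, h2 i⟩), ?_⟩
      rw [Finset.sum_congr rfl fun i _ => sum_lv y (C i), ← sum_pr]
      exact h3)
  choose Z hZ hZ2 using htop
  have htopC : ∀ i, (Z i).image (fun z => (z, k' - 1)) ∈ CC i := by
    intro i
    rw [hCC]
    refine ⟨fun p hp => ?_, fun v hv => ?_⟩
    · obtain ⟨z, _, rfl⟩ := Finset.mem_image.1 hp
      show k' - 1 < k'
      omega
    · obtain ⟨z, hz, hd⟩ := hZ2 i v hv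
      exact ⟨(z, k' - 1), Finset.mem_image_of_mem _ hz, hd⟩
  have hpcs : Pcs (univ : Finset (Fin m)) U (NN (k := k'))
      (fun i => lv k' ((Z i).image (fun z => (z, k' - 1)))) (A : ℝ) := by
    refine ⟨fun i _ u hu R => ?_, fun i _ u hu R R' hR => ?_, ⟨k', fun i _ u _ => ?_⟩,
      fun i _ => Finset.mem_image_of_mem _ (htopC i), fun i _ => ?_⟩
    · obtain ⟨C, hC, rfl⟩ := hUex i u hu
      rw [NN_lv C ((hCC i C).1 hC).1]
      exact Nat.cast_nonneg _
    · obtain ⟨C, hC, rfl⟩ := hUex i u hu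
      rw [NN_lv C ((hCC i C).1 hC).1, NN_lv C ((hCC i C).1 hC).1]
      exact_mod_cast Finset.card_le_card fun p hp => by
        rw [Finset.mem_filter] at hp ⊢
        exact ⟨hp.1, hR.trans hp.2⟩
    · unfold NN
      rw [dif_neg (lt_irrefl _)]
    · rw [NN_lv _ ((hCC i _).1 (htopC i)).1]
      exact_mod_cast (Finset.card_filter_le _ _).trans (Finset.card_image_le.trans (hZ i))
  have hfr : Fr (univ : Finset (Fin m)) U x := ⟨fun i _ u _ => hx0 i u, fun i _ => hx1 i⟩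
  have huse : ∀ R, R < k' → use univ U x (fun u => NN u R) ≤ (k' : ℝ) - R := by
    intro R hR
    unfold use NN
    simp only [dif_pos hR]
    exact hxa ⟨R, hR⟩
  -- the rounding
  have hl1 : (1 : ℝ) ≤ l := by exact_mod_cast hl
  have hm' : (((univ : Finset (Fin m)).card : ℕ) : ℝ) ≤ 2 ^ l * (32 * (l : ℝ)) := by
    rw [Finset.card_univ, Fintype.card_fin]
    have h5 : (m : ℝ) ≤ 2 ^ l := by exact_mod_cast hm
    have h6 : (0 : ℝ) < 2 ^ l := by positivity
    calc (m : ℝ) ≤ 2 ^ l * 1 := by rw [mul_one]; exact h5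
      _ ≤ 2 ^ l * (32 * (l : ℝ)) := mul_le_mul_of_nonneg_left (by linarith) h6.le
  obtain ⟨c, hc1, hc2⟩ := round hpcs (Nat.cast_nonneg A) (Y := (2 : ℝ) ^ (8 * l))
    (δ := 32 * (l : ℝ)) (by positivity) (by linarith) (by
      have h1 : -(32 * (l : ℝ) / 4) = ((8 * l : ℕ) : ℝ) * (-1) := by push_cast; ring
      rw [h1, Real.exp_nat_mul, ← mul_pow]
      refine pow_le_one₀ (by positivity) ?_
      rw [Real.exp_neg, ← div_eq_mul_inv, div_le_one (Real.exp_pos 1)]
      have := Real.add_one_le_exp (1 : ℝ)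
      linarith) l hfr hm' (by
    have h1 := huse 0 hk0
    have h2 : ((k' + l * (A * (32 * l) + 1) : ℕ) : ℝ) ≤ ((2 ^ (8 * l) : ℕ) : ℝ) := by
      exact_mod_cast pow_bound hl hA hk'
    push_cast at h1 h2
    linarith)
  have hex : ∀ i, ∃ C ∈ CC i, lv k' C = c i := fun i => hUex i _ (hc1 i (mem_univ i))
  choose C hC hCc using hex
  -- the balls
  let B : Finset (Fin m × (V × ℕ)) := univ.biUnion fun i => (C i).image fun p => (i, p)
  have hB : ∀ b, b ∈ B ↔ b.2 ∈ C b.1 := by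
    intro b
    show b ∈ univ.biUnion (fun i => (C i).image fun p => (i, p)) ↔ _
    rw [Finset.mem_biUnion]
    constructor
    · rintro ⟨i, _, hi⟩
      obtain ⟨p, hp, rfl⟩ := Finset.mem_image.1 hi
      exact hp
    · intro h
      exact ⟨b.1, mem_univ _, Finset.mem_image.2 ⟨b.2, h, rfl⟩⟩
  refine burning_of_balls hG _ (fun b : Fin m × (V × ℕ) => b.2.2) (fun b => b.2.1) B ?_ ?_
  · intro b hb
    have hbk : b.2.2 < k' := ((hCC b.1 _).1 (hC b.1)).1 _ ((hB b).1 hb)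
    set R := b.2.2 with hR
    have e1 : (B.filter fun b' => R ≤ b'.2.2).card ≤
        ∑ i, ((C i).filter fun p => R ≤ p.2).card := by
      have e2 : (B.filter fun b' => R ≤ b'.2.2) ⊆
          ((univ : Finset (Fin m)).sigma fun i => (C i).filter fun p => R ≤ p.2).image
            (fun z => ((z.1, z.2) : Fin m × (V × ℕ))) := by
        intro b' hb'
        rw [Finset.mem_filter, hB] at hb'
        refine Finset.mem_image.2 ⟨⟨b'.1, b'.2⟩, ?_, rfl⟩
        rw [Finset.mem_sigma]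
        exact ⟨mem_univ _, Finset.mem_filter.2 hb'⟩
      refine (Finset.card_le_card e2).trans (Finset.card_image_le.trans ?_)
      rw [Finset.card_sigma]
    have e3 : ((∑ i, ((C i).filter fun p => R ≤ p.2).card : ℕ) : ℝ) =
        ∑ i, NN (c i) R := by
      rw [Nat.cast_sum]
      refine Finset.sum_congr rfl fun i _ => ?_
      rw [← hCc i, NN_lv _ ((hCC i _).1 (hC i)).1]
    have e4 : ((∑ i, ((C i).filter fun p => R ≤ p.2).card : ℕ) : ℝ) ≤
        ((k' - R + (32 * A * l * (l + 1) + l) : ℕ) : ℝ) := by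
      rw [e3]
      have h1 := hc2 R
      have h2 := huse R hbk
      rw [Nat.cast_add, Nat.cast_sub hbk.le]
      push_cast
      have h3 : (l : ℝ) * (A * (32 * l) + 1) + A * (32 * l) = 32 * A * l * (l + 1) + l := by
        ring
      linarith
    have e5 : (∑ i, ((C i).filter fun p => R ≤ p.2).card) ≤
        k' - R + (32 * A * l * (l + 1) + l) := by
      exact_mod_cast e4
    show (B.filter fun b' => R ≤ b'.2.2).card + R ≤ _
    omega
  · intro v
    obtain ⟨i, hi⟩ := hcov v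
    obtain ⟨p, hp, hp2⟩ := ((hCC i _).1 (hC i)).2 v hi
    exact ⟨(i, p), (hB _).2 hp, hp2⟩

end Pool.Agent.Helper55.BR
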