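import Mathlib

/-! # Fractional choices and basic solutions -/

set_option autoImplicit false

namespace Pool.Agent.Helper55.BR

open Finset

section

variable {ι α : Type*}

/-- A fractional choice of an element of `U i` for every `i ∈ E`. -/
structure Fr (E : Finset ι) (U : ι → Finset α) (x : ι → α → ℝ) : Prop where
  nonneg : ∀ i ∈ E, ∀ u ∈ U i, 0 ≤ x i u
  one : ∀ i ∈ E, ∑ u ∈ U i, x i u = 1

/-- The weighted sum. -/
def use (E : Finset ι) (U : ι → Finset α) (x : ι → α → ℝ) (f : α → ℝ) : ℝ :=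
  ∑ i ∈ E, ∑ u ∈ U i, x i u * f u

open Classical in
/-- The support in `U i`. -/
noncomputable def spt (U : ι → Finset α) (x : ι → α → ℝ) (i : ι) : Finset α :=
  (U i).filter fun u => 0 < x i u

open Classical in
/-- The indices where the choice is not integral. -/
noncomputable def flt (E : Finset ι) (U : ι → Finset α) (x : ι → α → ℝ) : Finset ι :=
  E.filter fun i => 1 < (spt U x i).card

theorem mem_spt {U : ι → Finset α} {x : ι → α → ℝ} {i : ι} {u : α} :
    u ∈ spt U x i ↔ u ∈ U i ∧ 0 < x i u := by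
  unfold spt
  rw [Finset.mem_filter]

theorem mem_flt {E : Finset ι} {U : ι → Finset α} {x : ι → α → ℝ} {i : ι} :
    i ∈ flt E U x ↔ i ∈ E ∧ 1 < (spt U x i).card := by
  unfold flt
  rw [Finset.mem_filter]

theorem flt_subset (E : Finset ι) (U : ι → Finset α) (x : ι → α → ℝ) : flt E U x ⊆ E :=
  fun _ h => (mem_flt.1 h).1

private theorem exists_smaller {D : ℕ} (E : Finset ι) (U : ι → Finset α) (w : Fin D → α → ℝ)
    (x : ι → α → ℝ) (hx : Fr E U x) (hE : D < (flt E U x).card) :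
    ∃ x', Fr E U x' ∧ (∀ j, use E U x' (w j) = use E U x (w j)) ∧
      ∑ i ∈ E, (spt U x' i).card < ∑ i ∈ E, (spt U x i).card := by
  classical
  obtain ⟨h0, h1⟩ := hx
  have hb : ∀ i ∈ flt E U x, ∃ u v, u ∈ U i ∧ v ∈ U i ∧ 0 < x i u ∧ 0 < x i v ∧ u ≠ v := by
    intro i hi
    obtain ⟨-, hi⟩ := mem_flt.mp hi
    obtain ⟨u, hu, v, hv, huv⟩ := Finset.one_lt_card.mp hi
    exact ⟨u, v, (mem_spt.mp hu).1, (mem_spt.mp hv).1, (mem_spt.mp hu).2,
      (mem_spt.mp hv).2, huv⟩
  have : Nonempty α := by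
    obtain ⟨i, hi⟩ := Finset.card_pos.1 (lt_of_le_of_lt (Nat.zero_le D) hE)
    obtain ⟨u, -⟩ := hb i hi
    exact ⟨u⟩
  choose! p q hp hq hxp hxq hpq using hb
  have hdep : ¬ LinearIndependent ℝ (fun i : flt E U x => fun j : Fin D =>
      w j (p i) - w j (q i)) := by
    intro hli
    have := hli.fintype_card_le_finrank
    rw [Fintype.card_coe, Module.finrank_fin_fun] at this
    omega
  rw [Fintype.not_linearIndependent_iff] at hdep
  obtain ⟨c0, hc1, ⟨i0, hi0⟩, hc2⟩ := hdep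
  set c : ι → ℝ := fun i => if h : i ∈ flt E U x then c0 ⟨i, h⟩ else 0 with hc
  have hci0 : c i0 ≠ 0 := by
    rw [hc]
    simp only [hi0, dif_pos]
    exact hc2
  have hcn : ∀ i, i ∉ flt E U x → c i = 0 := fun i hi => by rw [hc]; exact dif_neg hi
  have hsum : ∀ j, ∑ i ∈ E, c i * (w j (p i) - w j (q i)) = 0 := by
    intro j
    have h3 := congrFun hc1 j
    rw [Finset.sum_apply, Pi.zero_apply] at h3
    rw [← h3, ← Finset.sum_subset (flt_subset E U x) (fun i _ hi => by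
      rw [hcn i hi, zero_mul]), ← Finset.sum_coe_sort (flt E U x)]
    refine Finset.sum_congr rfl fun i _ => ?_
    rw [hc]
    simp only [i.2, dif_pos, Pi.smul_apply, smul_eq_mul]
  set δ : ι → α → ℝ := fun i u =>
    (if u = p i then c i else 0) - (if u = q i then c i else 0) with hδ
  have hδsum : ∀ i, ∑ u ∈ U i, δ i u = 0 := by
    intro i
    by_cases hi : i ∈ flt E U x
    · rw [hδ]
      simp only [Finset.sum_sub_distrib, Finset.sum_ite_eq', hp i hi, hq i hi, if_true, sub_self]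
    · refine Finset.sum_eq_zero fun u _ => ?_
      rw [hδ]
      simp [hcn i hi]
  have hδmul : ∀ i j, ∑ u ∈ U i, δ i u * w j u = c i * (w j (p i) - w j (q i)) := by
    intro i j
    by_cases hi : i ∈ flt E U x
    · rw [hδ]
      simp only [sub_mul, ite_mul, zero_mul, Finset.sum_sub_distrib, Finset.sum_ite_eq', hp i hi,
        hq i hi, if_true, mul_sub]
    · rw [hcn i hi, zero_mul]
      refine Finset.sum_eq_zero fun u _ => ?_
      rw [hδ]
      simp [hcn i hi]
  have hδsupp : ∀ i u, δ i u ≠ 0 → i ∈ E ∧ u ∈ U i ∧ 0 < x i u := by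
    intro i u hne
    have hi : i ∈ flt E U x := by
      by_contra hi
      apply hne
      rw [hδ]
      simp [hcn i hi]
    by_cases h3 : u = p i
    · rw [h3]
      exact ⟨flt_subset E U x hi, hp i hi, hxp i hi⟩
    · by_cases h4 : u = q i
      · rw [h4]
        exact ⟨flt_subset E U x hi, hq i hi, hxq i hi⟩
      · exfalso
        apply hne
        rw [hδ]
        simp [h3, h4]
  -- the negative coordinates
  set N : Finset (Σ _ : ι, α) := (E.sigma (spt U x)).filter fun z => δ z.1 z.2 < 0 with hN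
  have hNne : N.Nonempty := by
    have hi0E := flt_subset E U x hi0
    rcases lt_or_gt_of_ne hci0 with h3 | h3
    · refine ⟨⟨i0, p i0⟩, mem_filter.mpr ⟨mem_sigma.mpr ⟨hi0E,
        mem_spt.mpr ⟨hp i0 hi0, hxp i0 hi0⟩⟩, ?_⟩⟩
      rw [hδ]
      simp [hpq i0 hi0, h3]
    · refine ⟨⟨i0, q i0⟩, mem_filter.mpr ⟨mem_sigma.mpr ⟨hi0E,
        mem_spt.mpr ⟨hq i0 hi0, hxq i0 hi0⟩⟩, ?_⟩⟩
      rw [hδ]
      simp [(hpq i0 hi0).symm, h3]
  obtain ⟨z, hz, hmin⟩ := Finset.exists_min_image N (fun z => x z.1 z.2 / (-δ z.1 z.2)) hNne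
  obtain ⟨hz1, hz2⟩ := mem_filter.mp hz
  obtain ⟨hz3, hz4⟩ := mem_sigma.mp hz1
  obtain ⟨hz5, hz6⟩ := mem_spt.mp hz4
  set t : ℝ := x z.1 z.2 / (-δ z.1 z.2) with ht
  have ht0 : 0 < t := div_pos hz6 (neg_pos.mpr hz2)
  have hnn : ∀ i ∈ E, ∀ u ∈ U i, 0 ≤ x i u + t * δ i u := by
    intro i hi u hu
    rcases lt_or_ge (δ i u) 0 with h3 | h3
    · obtain ⟨h4, h5, h6'⟩ := hδsupp i u h3.ne
      have h6 := hmin ⟨i, u⟩ (mem_filter.mpr ⟨mem_sigma.mpr ⟨h4, mem_spt.mpr ⟨h5, h6'⟩⟩, h3⟩)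
      have h7 : t ≤ x i u / (-δ i u) := h6
      rw [le_div_iff₀ (neg_pos.mpr h3)] at h7
      linarith
    · have := h0 i hi u hu
      have := mul_nonneg ht0.le h3
      linarith
  refine ⟨fun i u => x i u + t * δ i u, ⟨hnn, ?_⟩, ?_, ?_⟩
  · intro i hi
    rw [Finset.sum_add_distrib, h1 i hi, ← Finset.mul_sum, hδsum i, mul_zero, add_zero]
  · intro j
    unfold use
    have h3 : ∑ i ∈ E, ∑ u ∈ U i, (x i u + t * δ i u) * w j u =
        ∑ i ∈ E, ∑ u ∈ U i, x i u * w j u + t * ∑ i ∈ E, c i * (w j (p i) - w j (q i)) := by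
      rw [Finset.mul_sum, ← Finset.sum_add_distrib]
      refine Finset.sum_congr rfl fun i _ => ?_
      rw [← hδmul i j, Finset.mul_sum, ← Finset.sum_add_distrib]
      refine Finset.sum_congr rfl fun u _ => ?_
      ring
    rw [h3, hsum j, mul_zero, add_zero]
  · have hsub : ∀ i ∈ E, spt U (fun i u => x i u + t * δ i u) i ⊆ spt U x i := by
      intro i _ u hu
      obtain ⟨hu1, hu2⟩ := mem_spt.mp hu
      replace hu2 : 0 < x i u + t * δ i u := hu2
      refine mem_spt.mpr ⟨hu1, ?_⟩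
      by_cases h3 : δ i u = 0
      · rw [h3, mul_zero, add_zero] at hu2
        exact hu2
      · exact (hδsupp _ _ h3).2.2
    refine Finset.sum_lt_sum (fun i hi => Finset.card_le_card (hsub i hi)) ⟨z.1, hz3, ?_⟩
    apply Finset.card_lt_card
    rw [Finset.ssubset_iff_of_subset (hsub z.1 hz3)]
    refine ⟨z.2, hz4, fun h3 => ?_⟩
    have h4 : 0 < x z.1 z.2 + t * δ z.1 z.2 := (mem_spt.mp h3).2
    have h5 : x z.1 z.2 + t * δ z.1 z.2 = 0 := by
      rw [ht]
      have : δ z.1 z.2 ≠ 0 := hz2.ne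
      field_simp
      ring
    rw [h5] at h4
    exact lt_irrefl _ h4

/-- Basic solutions: `D` constraints are preserved, and at most `D` indices are not integral. -/
theorem exists_basic {D : ℕ} (E : Finset ι) (U : ι → Finset α) (w : Fin D → α → ℝ)
    (x : ι → α → ℝ) (hx : Fr E U x) :
    ∃ x', Fr E U x' ∧ (∀ j, use E U x' (w j) = use E U x (w j)) ∧ (flt E U x').card ≤ D := by
  have key : ∀ n : ℕ, ∀ x : ι → α → ℝ, Fr E U x → ∑ i ∈ E, (spt U x i).card = n →
      ∃ x', Fr E U x' ∧ (∀ j, use E U x' (w j) = use E U x (w j)) ∧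
        (flt E U x').card ≤ D := by
    intro n
    induction n using Nat.strong_induction_on with
    | _ n ih =>
    intro x hx hn
    rcases lt_or_ge D (flt E U x).card with hE | hE
    · obtain ⟨x', hx', he, hlt⟩ := exists_smaller E U w x hx hE
      obtain ⟨x'', h1, h2, h3⟩ := ih _ (hn ▸ hlt) x' hx' rfl
      exact ⟨x'', h1, fun j => (h2 j).trans (he j), h3⟩
    · exact ⟨x, hx, fun _ => rfl, hE⟩
  exact key _ x hx rfl

/-- The integral part of a fractional choice. -/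
theorem exists_integral {E : Finset ι} {U : ι → Finset α} {x : ι → α → ℝ} (hx : Fr E U x) :
    ∀ i ∈ E, i ∉ flt E U x → ∃ c ∈ U i, ∀ f : α → ℝ, ∑ u ∈ U i, x i u * f u = f c := by
  classical
  intro i hi hif
  have hex : ∃ u ∈ U i, 0 < x i u := by
    by_contra hcon
    push Not at hcon
    have := Finset.sum_nonpos fun u hu => hcon u hu
    rw [hx.one i hi] at this
    linarith
  obtain ⟨c, hc, hxc⟩ := hex
  have h4 : ∀ u ∈ U i, u ≠ c → x i u = 0 := by
    intro u hu hne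
    by_contra h5
    apply hif
    refine mem_flt.mpr ⟨hi, Finset.one_lt_card.mpr ⟨u, mem_spt.mpr
      ⟨hu, lt_of_le_of_ne (hx.nonneg i hi u hu) (Ne.symm h5)⟩, c, mem_spt.mpr ⟨hc, hxc⟩, hne⟩⟩
  have h5 : x i c = 1 := by
    rw [← hx.one i hi, Finset.sum_eq_single_of_mem c hc h4]
  refine ⟨c, hc, fun f => ?_⟩
  rw [Finset.sum_eq_single_of_mem c hc (fun u hu hne => by rw [h4 u hu hne, zero_mul]), h5,
    one_mul]

end

end Pool.Agent.Helper55.BR
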