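import Pool.Agent.Helper55.BR.Main

/-! # Burning number: the explicit bound -/

set_option autoImplicit false

namespace Pool.Agent.Helper55.BR

open N441b2449

private theorem two_mul_le (s : ℕ) : 2 * s ≤ 2 ^ s := by
  induction s with
  | zero => simp
  | succ s ih =>
    rcases Nat.eq_zero_or_pos s with h | h
    · subst h
      norm_num
    · rw [pow_succ]
      omega

private theorem sq_le (s : ℕ) : 8 * s ^ 2 ≤ 9 * 2 ^ s := by
  rcases Nat.lt_or_ge s 3 with h | h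
  · interval_cases s <;> norm_num
  · induction s, h using Nat.le_induction with
    | base => norm_num
    | succ s hs ih =>
      rw [pow_succ 2 s]
      nlinarith

theorem exists_log {k : ℕ} (hk : 0 < k) : ∃ s : ℕ, k ≤ 2 ^ s ∧ 2 ^ s ≤ 2 * k := by
  refine ⟨Nat.clog 2 k, Nat.le_pow_clog (by norm_num) k, ?_⟩
  rcases Nat.lt_or_ge 1 k with h | h
  · have h1 := Nat.pow_pred_clog_lt_self (b := 2) (by norm_num) h
    have h2 : 0 < Nat.clog 2 k := Nat.clog_pos (by norm_num) h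
    obtain ⟨t, ht⟩ : ∃ t, Nat.clog 2 k = t + 1 := ⟨Nat.clog 2 k - 1, by omega⟩
    rw [ht] at h1 ⊢
    rw [pow_succ]
    simp only [Nat.pred_succ] at h1
    omega
  · obtain rfl : k = 1 := by omega
    simp

theorem main' {V : Type*} [Fintype V] (G : SimpleGraph V) (hG : G.Connected) :
    (burningNumber G : ℝ) ≤ Real.sqrt (Fintype.card V) +
      6 * Real.log (Fintype.card V) ^ 2 + 90 * Real.log (Fintype.card V) + 280 := by
  have := hG.nonempty
  have hn : 0 < Fintype.card V := Fintype.card_pos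
  set n := Fintype.card V with hnd
  have hn1 : (1 : ℝ) ≤ n := by exact_mod_cast hn
  set k := ⌈Real.sqrt n⌉₊ with hkd
  have hsq1 : 1 ≤ Real.sqrt n := Real.one_le_sqrt.2 hn1
  have hk1 : Real.sqrt n ≤ k := Nat.le_ceil _
  have hk2 : (k : ℝ) < Real.sqrt n + 1 := Nat.ceil_lt_add_one (by linarith)
  have hkr : (1 : ℝ) ≤ k := hsq1.trans hk1
  have hk : 0 < k := by
    have : (0 : ℝ) < k := by linarith
    exact_mod_cast this
  have hnk : n ≤ k ^ 2 := by
    have h1 : (n : ℝ) ≤ (k : ℝ) ^ 2 := by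
      rw [← Real.sq_sqrt (by linarith : (0 : ℝ) ≤ n)]
      exact pow_le_pow_left₀ (by linarith) hk1 2
    exact_mod_cast h1
  obtain ⟨s, hs1, hs2⟩ := exists_log hk
  have hs2r : (2 : ℝ) ^ s ≤ 2 * k := by exact_mod_cast hs2
  have hln2 := Real.log_two_gt_d9
  have hln2' := Real.log_two_lt_d9
  set L := Real.log n with hL
  have hL0 : 0 ≤ L := Real.log_nonneg hn1
  -- the logarithm of k
  have hlk0 : 0 ≤ Real.log k := Real.log_nonneg hkr
  have hlk : Real.log k ≤ Real.log 2 + L / 2 := by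
    have h1 : (k : ℝ) ≤ 2 * Real.sqrt n := by linarith
    have h2 : Real.log k ≤ Real.log (2 * Real.sqrt n) := Real.log_le_log (by linarith) h1
    rw [Real.log_mul (by norm_num) (by linarith), Real.log_sqrt (by linarith)] at h2
    linarith
  have hsl : (s : ℝ) * Real.log 2 ≤ Real.log 2 + Real.log k := by
    have h1 : Real.log ((2 : ℝ) ^ s) ≤ Real.log (2 * k) := Real.log_le_log (by positivity) hs2r
    rwa [Real.log_pow, Real.log_mul (by norm_num) (by linarith)] at h1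
  have hY0 : (0 : ℝ) < 128 * k := by linarith
  have hlY : Real.log (128 * k) = 7 * Real.log 2 + Real.log k := by
    rw [Real.log_mul (by norm_num) (by linarith)]
    have : Real.log (128 : ℝ) = 7 * Real.log 2 := by
      rw [show (128 : ℝ) = 2 ^ (7 : ℕ) by norm_num, Real.log_pow]
      norm_num
    rw [this]
  set Λ := Real.log (128 * k) with hΛ
  have hs0 : (0 : ℝ) ≤ s := Nat.cast_nonneg s
  have h2s : 2 * (s : ℝ) ≤ 2 ^ s := by exact_mod_cast two_mul_le s
  have h8s : 8 * (s : ℝ) ^ 2 ≤ 9 * 2 ^ s := by exact_mod_cast sq_le s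
  have hpow : (0 : ℝ) < 2 ^ s := by positivity
  -- the condition on Y
  have hcond : (k : ℝ) + s * (4 * (4 * Λ) + 1) ≤ 128 * k := by
    set κ : ℝ := 2 * k / 2 ^ s with hκ
    have hκ1 : 1 ≤ κ := by
      rw [hκ, le_div_iff₀ hpow]
      linarith
    have hκk : κ * 2 ^ s = 2 * k := by
      rw [hκ]
      field_simp
    have hk' : (k : ℝ) = κ * 2 ^ s / 2 := by linarith
    have hlk' : Real.log k = Real.log κ + s * Real.log 2 - Real.log 2 := by
      rw [hk', Real.log_div (by positivity) (by norm_num), Real.log_mul (by positivity)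
        (by positivity), Real.log_pow]
    have hlκ : Real.log κ ≤ κ - 1 := Real.log_le_sub_one_of_pos (by linarith)
    have hΛ2 : Λ ≤ 3.1592 + 0.69315 * s + κ := by
      rw [hlY, hlk']
      have e1 : (s : ℝ) * Real.log 2 ≤ s * 0.69315 :=
        mul_le_mul_of_nonneg_left (by linarith) hs0
      linarith
    have h1 : (s : ℝ) * (4 * (4 * Λ) + 1) ≤ s * (16 * (3.1592 + 0.69315 * s + κ) + 1) :=
      mul_le_mul_of_nonneg_left (by linarith) hs0
    have h2 : (s : ℝ) * (16 * (3.1592 + 0.69315 * s + κ) + 1) =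
        51.5472 * s + 11.0904 * (s : ℝ) ^ 2 + 16 * (s * κ) := by ring
    have h3' : (s : ℝ) * 1 ≤ s * κ := mul_le_mul_of_nonneg_left hκ1 hs0
    have h3 : 51.5472 * (s : ℝ) ≤ 51.5472 * (s * κ) := by linarith
    have h4' : (s : ℝ) ^ 2 * 1 ≤ (s : ℝ) ^ 2 * κ :=
      mul_le_mul_of_nonneg_left hκ1 (by positivity)
    have h4 : 11.0904 * (s : ℝ) ^ 2 ≤ 11.0904 * ((s : ℝ) ^ 2 * κ) := by linarith
    have hκ0 : (0 : ℝ) ≤ κ := by linarith
    have h5' : 2 * (s : ℝ) * κ ≤ 2 ^ s * κ := mul_le_mul_of_nonneg_right h2s hκ0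
    have h5 : (s : ℝ) * κ ≤ 2 ^ s * κ / 2 := by linarith
    have h6' : 8 * (s : ℝ) ^ 2 * κ ≤ 9 * 2 ^ s * κ := mul_le_mul_of_nonneg_right h8s hκ0
    have h6 : (s : ℝ) ^ 2 * κ ≤ 9 * (2 ^ s * κ) / 8 := by linarith
    have h7 : (2 : ℝ) ^ s * κ = 2 * k := by linarith
    rw [h7] at h5 h6
    linarith
  obtain ⟨X, hX1, hX2⟩ : ∃ X : ℕ, (s : ℝ) * (4 * (4 * Λ) + 1) + 4 * (4 * Λ) < X ∧
      (X : ℝ) ≤ (s : ℝ) * (4 * (4 * Λ) + 1) + 4 * (4 * Λ) + 1 := by
    have hnn : 0 ≤ (s : ℝ) * (4 * (4 * Λ) + 1) + 4 * (4 * Λ) := by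
      have : 0 ≤ Λ := by rw [hlY]; linarith
      positivity
    refine ⟨⌊(s : ℝ) * (4 * (4 * Λ) + 1) + 4 * (4 * Λ)⌋₊ + 1, ?_, ?_⟩
    · push_cast
      exact Nat.lt_floor_add_one _
    · push_cast
      have := Nat.floor_le hnn
      linarith
  have hmain := main G hG (k := k) (s := s) (X := X) hk hnk (Y := 128 * k) (δ := 4 * Λ) hY0
    (by rw [hlY]; linarith)
    (by
      have h1 : -(4 * Λ / 4) = - Real.log (128 * k) := by rw [hΛ]; ring
      rw [h1, Real.exp_neg, Real.exp_log hY0, mul_inv_cancel₀ hY0.ne']) hs1 hcond hX1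
  have hmain' : (burningNumber G : ℝ) ≤ (k : ℝ) + X + 2 := by exact_mod_cast hmain
  -- the final estimate
  have hsL : (s : ℝ) ≤ 2 + 0.7214 * L := by
    by_contra hcon
    push Not at hcon
    have h1 : (2 + 0.7214 * L) * Real.log 2 < s * Real.log 2 :=
      mul_lt_mul_of_pos_right hcon (by linarith)
    have h2 : L * 0.6931471803 ≤ L * Real.log 2 := mul_le_mul_of_nonneg_left hln2.le hL0
    linarith
  have hΛL : Λ ≤ 5.5456 + L / 2 := by
    rw [hlY]
    linarith
  have hΛ0 : 0 ≤ Λ := by rw [hlY]; linarith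
  have h1 : (s : ℝ) * (4 * (4 * Λ) + 1) ≤ (2 + 0.7214 * L) * (4 * (4 * (5.5456 + L / 2)) + 1) :=
    mul_le_mul hsL (by linarith) (by linarith) (by linarith)
  have h2 : (2 + 0.7214 * L) * (4 * (4 * (5.5456 + L / 2)) + 1) =
      179.4592 + 80.73093344 * L + 5.7712 * L ^ 2 := by ring
  have h3 : (0 : ℝ) ≤ L ^ 2 := by positivity
  rw [h2] at h1
  linarith

end Pool.Agent.Helper55.BR
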