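import Pool.Agent.Helper51.BN.Classes
import Pool.Agent.Helper51.BN.Round
import Pool.Agent.Helper51.BN.Span
import Pool.Agent.Helper51.BN.Pieces
import Pool.Agent.Helper51.BN.Greedy
import Pool.Agent.Helper55.BR.Stage
import Pool.Agent.Helper55.BR.Assign

/-! # Burning number: rounding with an error of order `(log n) ^ 2` -/

set_option autoImplicit false

namespace Pool.Agent.Helper55.BR

open Finset N441b2449 Pool.Agent.Helper51.BN

/-- The number of balls of class at least `R`. -/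
def Nb {k : ℕ} (u : Fin k → ℝ) (R : ℕ) : ℝ := ∑ j : Fin k, if R ≤ (j : ℕ) then u j else 0

theorem Nb_nonneg {k : ℕ} {u : Fin k → ℝ} (hu : ∀ j, 0 ≤ u j) (R : ℕ) : 0 ≤ Nb u R :=
  Finset.sum_nonneg fun j _ => by split_ifs <;> simp [hu j]

theorem Nb_anti {k : ℕ} {u : Fin k → ℝ} (hu : ∀ j, 0 ≤ u j) {R R' : ℕ} (h : R ≤ R') :
    Nb u R' ≤ Nb u R :=
  Finset.sum_le_sum fun j _ => by
    by_cases h1 : R' ≤ (j : ℕ)
    · rw [if_pos h1, if_pos (h.trans h1)]
    · rw [if_neg h1]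
      split_ifs <;> simp [hu j]

theorem Nb_top {k : ℕ} (u : Fin k → ℝ) : Nb u k = 0 :=
  Finset.sum_eq_zero fun j _ => if_neg (by have := j.2; omega)

/-- The numbers of the balls of the classes. -/
def us {V : Type*} [DecidableEq V] {k : ℕ} (C : Finset (V × Fin k)) (j : Fin k) : ℝ :=
  ((C.filter fun p => p.2 = j).card : ℝ)

theorem us_nonneg {V : Type*} [DecidableEq V] {k : ℕ} (C : Finset (V × Fin k)) (j : Fin k) :
    0 ≤ us C j := Nat.cast_nonneg _

theorem Nb_us {V : Type*} [DecidableEq V] {k : ℕ} (C : Finset (V × Fin k)) (R : ℕ) :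
    Nb (us C) R = ((C.filter fun p => R ≤ (p.2 : ℕ)).card : ℝ) := by
  unfold Nb us
  rw [Finset.card_eq_sum_ones, Finset.sum_filter, Nat.cast_sum,
    ← Finset.sum_fiberwise C (fun p => p.2)]
  refine Finset.sum_congr rfl fun j _ => ?_
  rw [Finset.card_eq_sum_ones, Nat.cast_sum]
  by_cases h : R ≤ (j : ℕ)
  · rw [if_pos h]
    refine Finset.sum_congr rfl fun p hp => ?_
    rw [(Finset.mem_filter.1 hp).2, if_pos h]
  · rw [if_neg h]
    symm
    refine Finset.sum_eq_zero fun p hp => ?_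
    rw [(Finset.mem_filter.1 hp).2, if_neg h]
    simp

theorem sum_us {V : Type*} [DecidableEq V] {k : ℕ} (y : Fin k → ℝ) (C : Finset (V × Fin k)) :
    ∑ j, y j * us C j = ∑ p ∈ C, y p.2 := by
  unfold us
  rw [← Finset.sum_fiberwise C (fun p => p.2) (fun p => y p.2)]
  apply Finset.sum_congr rfl
  intro j _
  rw [Finset.sum_congr rfl (g := fun _ => y j)]
  · rw [Finset.sum_const, nsmul_eq_mul, mul_comm]
  · intro p hp
    rw [(Finset.mem_filter.1 hp).2]

theorem cap_le {k : ℕ} (R : ℕ) (hR : R ≤ k) : (∑ j : Fin k, if R ≤ (j : ℕ) then (1 : ℝ) else 0)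
    ≤ k - R := by
  rw [Finset.sum_ite, Finset.sum_const_zero, add_zero, Finset.sum_const, nsmul_eq_mul, mul_one]
  have h1 : (univ.filter fun j : Fin k => R ≤ (j : ℕ)).card ≤ k - R := by
    have h2 : ((univ.filter fun j : Fin k => R ≤ (j : ℕ)).map Fin.valEmbedding) ⊆
        Finset.Ico R k := by
      intro x hx
      rw [Finset.mem_map] at hx
      obtain ⟨j, hj, rfl⟩ := hx
      rw [Finset.mem_filter] at hj
      rw [Finset.mem_Ico]
      exact ⟨hj.2, j.2⟩
    have h3 := Finset.card_le_card h2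
    rw [Finset.card_map, Nat.card_Ico] at h3
    exact h3
  have h4 : ((univ.filter fun j : Fin k => R ≤ (j : ℕ)).card : ℝ) ≤ ((k - R : ℕ) : ℝ) := by
    exact_mod_cast h1
  rwa [Nat.cast_sub hR] at h4

theorem main {V : Type*} [Fintype V] (G : SimpleGraph V) (hG : G.Connected) {k s X : ℕ}
    (hk : 0 < k) (hn : Fintype.card V ≤ k ^ 2) {Y δ : ℝ} (hY : 0 < Y) (hδ8 : 8 ≤ δ)
    (hδ : Y * Real.exp (-(δ / 4)) ≤ 1) (hs : k ≤ 2 ^ s)
    (h0 : (k : ℝ) + s * (4 * δ + 1) ≤ Y) (hX : (s : ℝ) * (4 * δ + 1) + 4 * δ < X) :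
    burningNumber G ≤ k + X + 2 := by
  classical
  obtain ⟨r, h, H⟩ := exists_built hG
  obtain ⟨m, P, q, f, κ, S₀, e₀, h₀, hP, hf1, hf2, H0, he0, hcov, hsum⟩ :=
    exists_pieces H (s := 2 * k + 1) (by omega)
  have hkr : (0 : ℝ) < k := by exact_mod_cast hk
  let CC : Fin m → Finset (Finset (V × Fin k)) := fun i => univ.filter fun C =>
    ∀ v ∈ P i, ∃ p ∈ C, G.dist p.1 v ≤ (p.2 : ℕ) + 1
  let U : Fin m → Finset (Fin k → ℝ) := fun i => (CC i).image us
  have hUnn : ∀ i, ∀ u ∈ U i, ∀ j, 0 ≤ u j := by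
    intro i u hu j
    obtain ⟨C, _, rfl⟩ := Finset.mem_image.1 hu
    exact us_nonneg C j
  have hcover : ∀ y : Fin k → ℝ, (∀ j, 0 ≤ y j) → ∀ i, ∃ C ∈ CC i,
      ((k : ℝ) ^ 2) * ∑ p ∈ C, y p.2 ≤ f i * ∑ j, y j := by
    intro y hy i
    obtain ⟨C, h1, h2⟩ := exists_class_cover hG (D := k) (w := 1) hk one_pos y hy (hP i)
      (by have := hf1 i; omega)
    refine ⟨C, Finset.mem_filter.2 ⟨Finset.mem_univ _, fun v hv => ?_⟩, ?_⟩
    · obtain ⟨p, hp, hd⟩ := h1 v hv
      exact ⟨p, hp, by simpa using hd⟩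
    · simpa using h2
  have hsumf : (∑ i, (f i : ℝ)) ≤ (k : ℝ) ^ 2 := by
    have h1 : ∑ i, f i ≤ k ^ 2 := by omega
    exact_mod_cast h1
  -- the fractional solution
  obtain ⟨x, hx0, hx1, hxa⟩ := exists_frac U (by
      intro i
      obtain ⟨C, hC, _⟩ := hcover (fun _ => 0) (fun _ => le_rfl) i
      exact ⟨us C, Finset.mem_image_of_mem _ hC⟩) (fun _ => (1 : ℝ)) (by
      intro y hy
      choose C hC hC2 using hcover y hy
      refine ⟨fun i => us (C i), fun i => Finset.mem_image_of_mem _ (hC i), ?_⟩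
      rw [Finset.sum_congr rfl fun i _ => sum_us y (C i)]
      have h2 : ((k : ℝ) ^ 2) * ∑ i, ∑ p ∈ C i, y p.2 ≤ ((k : ℝ) ^ 2) * ∑ j, y j := by
        rw [Finset.mul_sum]
        refine (Finset.sum_le_sum fun i _ => hC2 i).trans ?_
        rw [← Finset.sum_mul]
        exact mul_le_mul_of_nonneg_right hsumf (Finset.sum_nonneg fun j _ => hy j)
      have h4 := le_of_mul_le_mul_left h2 (by positivity)
      simpa using h4)
  -- the covers by large balls
  have hgr : ∀ i, ∃ Z : Finset V, Z.card ≤ 4 ∧ ∀ v ∈ P i, ∃ z ∈ Z, G.dist z v ≤ k := by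
    intro i
    obtain ⟨Z, hZ, hZ2⟩ := exists_greedy hG (hP i) k
    refine ⟨Z, hZ.trans ?_, hZ2⟩
    have h1 : f i / (k + 1) < 4 := by
      rw [Nat.div_lt_iff_lt_mul (by positivity)]
      have h2 := hf2 i
      omega
    omega
  choose Z hZ hZ2 using hgr
  let kk : Fin k := ⟨k - 1, by omega⟩
  have htopC : ∀ i, (Z i).image (fun z => (z, kk)) ∈ CC i := by
    intro i
    refine Finset.mem_filter.2 ⟨Finset.mem_univ _, fun v hv => ?_⟩
    obtain ⟨z, hz, hd⟩ := hZ2 i v hv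
    refine ⟨(z, kk), Finset.mem_image_of_mem _ hz, ?_⟩
    show G.dist z v ≤ (k - 1) + 1
    omega
  have hpcs : Pcs (univ : Finset (Fin m)) U Nb
      (fun i => us ((Z i).image (fun z => (z, kk)))) 4 := by
    refine ⟨fun i _ u hu R => Nb_nonneg (hUnn i u hu) R,
      fun i _ u hu R R' hR => Nb_anti (hUnn i u hu) hR, ⟨k, fun i _ u _ => Nb_top u⟩,
      fun i _ => Finset.mem_image_of_mem _ (htopC i), fun i _ => ?_⟩
    rw [Nb_us]
    have h1 : (((Z i).image (fun z => (z, kk))).filter fun p => 0 ≤ (p.2 : ℕ)).card ≤ 4 :=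
      (Finset.card_filter_le _ _).trans (Finset.card_image_le.trans (hZ i))
    exact_mod_cast h1
  have hfr : Fr (univ : Finset (Fin m)) U x := ⟨fun i _ u _ => hx0 i u, fun i _ => hx1 i⟩
  have huse : ∀ R, R ≤ k → use univ U x (fun u => Nb u R) ≤ (k : ℝ) - R := by
    intro R hR
    have h1 : use univ U x (fun u => Nb u R) =
        ∑ j : Fin k, if R ≤ (j : ℕ) then (∑ i, ∑ u ∈ U i, x i u * u j) else 0 := by
      unfold use Nb
      have h2 : ∀ i, ∑ u ∈ U i, x i u * (∑ j : Fin k, if R ≤ (j : ℕ) then u j else 0) =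
          ∑ j : Fin k, if R ≤ (j : ℕ) then (∑ u ∈ U i, x i u * u j) else 0 := by
        intro i
        simp_rw [Finset.mul_sum]
        rw [Finset.sum_comm]
        refine Finset.sum_congr rfl fun j _ => ?_
        by_cases h3 : R ≤ (j : ℕ)
        · simp [h3]
        · simp [h3]
      rw [Finset.sum_congr rfl fun i _ => h2 i, Finset.sum_comm]
      refine Finset.sum_congr rfl fun j _ => ?_
      by_cases h3 : R ≤ (j : ℕ)
      · simp [h3]
      · simp [h3]
    rw [h1]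
    refine le_trans (Finset.sum_le_sum fun j _ => ?_) (cap_le R hR)
    by_cases h3 : R ≤ (j : ℕ)
    · rw [if_pos h3, if_pos h3]
      exact hxa j
    · rw [if_neg h3, if_neg h3]
  -- the rounding
  have hm : (((univ : Finset (Fin m)).card : ℕ) : ℝ) ≤ 2 ^ s * δ := by
    rw [Finset.card_univ, Fintype.card_fin]
    have h1 : m * (2 * k + 1) ≤ ∑ i, f i := by
      have := Finset.card_nsmul_le_sum (univ : Finset (Fin m)) f (2 * k + 1) fun i _ => hf1 i
      rwa [Finset.card_univ, Fintype.card_fin, smul_eq_mul] at this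
    have h2 : m * (2 * k + 1) ≤ k * k := by
      have : k ^ 2 = k * k := sq k
      omega
    have h3 : m ≤ k := by
      by_contra hcon
      push Not at hcon
      nlinarith
    have h4 : m ≤ 2 ^ s := h3.trans hs
    have h5 : (m : ℝ) ≤ 2 ^ s := by exact_mod_cast h4
    have h6 : (0 : ℝ) ≤ 2 ^ s := by positivity
    nlinarith
  obtain ⟨c, hc1, hc2⟩ := round hpcs (by norm_num) hY hδ8 hδ s hfr hm (by
    have := huse 0 (Nat.zero_le k)
    push_cast at this
    linarith)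
  have hex : ∀ i, ∃ C ∈ CC i, us C = c i := fun i => Finset.mem_image.1 (hc1 i (mem_univ i))
  choose C hC hCc using hex
  obtain ⟨Z0, hZ0, hZ02⟩ : ∃ Z : Finset V, Z.card ≤ 2 ∧
      ∀ v ∈ S₀, ∃ z ∈ Z, G.dist z v ≤ k := by
    obtain ⟨Z, hZ, hZ2⟩ := exists_greedy hG H0 k
    refine ⟨Z, hZ.trans ?_, hZ2⟩
    have h1 : e₀ / (k + 1) < 2 := by
      rw [Nat.div_lt_iff_lt_mul (by positivity)]
      omega
    omega
  -- the balls
  let B : Finset ((Fin m × (V × Fin k)) ⊕ V) :=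
    (univ.filter fun z : Fin m × (V × Fin k) => z.2 ∈ C z.1).disjSum Z0
  let cl : (Fin m × (V × Fin k)) ⊕ V → ℕ := Sum.elim (fun z => (z.2.2 : ℕ) + 1) (fun _ => k)
  let ce : (Fin m × (V × Fin k)) ⊕ V → V := Sum.elim (fun z => z.2.1) id
  have hcl1 : ∀ b ∈ B, 1 ≤ cl b ∧ cl b ≤ k := by
    rintro (z | z) _
    · show 1 ≤ (z.2.2 : ℕ) + 1 ∧ (z.2.2 : ℕ) + 1 ≤ k
      have := z.2.2.2
      omega
    · show 1 ≤ k ∧ k ≤ k
      omega
  have hcount : ∀ R, 1 ≤ R → R ≤ k → (B.filter fun b' => R ≤ cl b').card ≤ k - R + X + 2 := by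
    intro R hR1 hRk
    have e1 : (B.filter fun b' => R ≤ cl b').card ≤
        (∑ i, ((C i).filter fun p => R - 1 ≤ (p.2 : ℕ)).card) + Z0.card := by
      have e2 : (B.filter fun b' => R ≤ cl b') ⊆
          ((univ : Finset (Fin m)).sigma fun i => (C i).filter fun p => R - 1 ≤ (p.2 : ℕ)).image
            (fun z => (Sum.inl (z.1, z.2) : (Fin m × (V × Fin k)) ⊕ V)) ∪
          Z0.image Sum.inr := by
        intro b hb
        rw [Finset.mem_filter] at hb
        rcases b with z | z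
        · refine Finset.mem_union_left _ (Finset.mem_image.2 ⟨⟨z.1, z.2⟩, ?_, rfl⟩)
          have h1 : z.2 ∈ C z.1 := by
            have := hb.1
            simpa [B] using this
          have h2 : R ≤ (z.2.2 : ℕ) + 1 := hb.2
          rw [Finset.mem_sigma]
          exact ⟨mem_univ _, Finset.mem_filter.2 ⟨h1, by show R - 1 ≤ (z.2.2 : ℕ); omega⟩⟩
        · refine Finset.mem_union_right _ (Finset.mem_image.2 ⟨z, ?_, rfl⟩)
          have := hb.1
          simpa [B] using this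
      refine (Finset.card_le_card e2).trans ((Finset.card_union_le _ _).trans ?_)
      refine Nat.add_le_add (Finset.card_image_le.trans ?_) Finset.card_image_le
      rw [Finset.card_sigma]
    have e3 : ((∑ i, ((C i).filter fun p => R - 1 ≤ (p.2 : ℕ)).card : ℕ) : ℝ) =
        ∑ i, Nb (c i) (R - 1) := by
      rw [Nat.cast_sum]
      refine Finset.sum_congr rfl fun i _ => ?_
      rw [← hCc i, Nb_us]
    have e4 : ((∑ i, ((C i).filter fun p => R - 1 ≤ (p.2 : ℕ)).card : ℕ) : ℝ) <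
        ((k - (R - 1) + X : ℕ) : ℝ) := by
      rw [e3]
      have h1 := hc2 (R - 1)
      have h2 := huse (R - 1) (by omega)
      rw [Nat.cast_add, Nat.cast_sub (by omega)]
      linarith
    have e5 : (∑ i, ((C i).filter fun p => R - 1 ≤ (p.2 : ℕ)).card) < k - (R - 1) + X := by
      exact_mod_cast e4
    omega
  refine (burning_of_balls hG (k + X + 2) cl ce B ?_ ?_)
  · intro b hb
    obtain ⟨h1, h2⟩ := hcl1 b hb
    have h3 := hcount (cl b) h1 h2
    omega
  · intro v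
    rcases hcov v (Finset.mem_univ v) with hv | ⟨i, hv⟩
    · obtain ⟨z, hz, hz2⟩ := hZ02 v hv
      refine ⟨Sum.inr z, ?_, hz2⟩
      simpa [B] using hz
    · obtain ⟨p, hp, hp2⟩ := (Finset.mem_filter.1 (hC i)).2 v hv
      refine ⟨Sum.inl (i, p), ?_, hp2⟩
      simpa [B] using hp

end Pool.Agent.Helper55.BR
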